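import Pool.Agent.H649T.Fin

/-!
A compact set of positive and finite measure of dimension `d - 1` that satisfies the tube bound
for every exponent below `d - 1`.
-/

set_option autoImplicit false

open MeasureTheory
open scoped ENNReal NNReal

namespace Pool.Agent.Results.MP_e5cefd_an.TubeOccupancy

/-- The line through `p` in direction `v`. -/
def line {d : ℕ} (p v : EuclideanSpace ℝ (Fin d)) : Set (EuclideanSpace ℝ (Fin d)) :=
  {x | ∃ t : ℝ, x = p + t • v}

/-- The tube of width `w` around the line through `p` in direction `v`: the points at distance at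
most `w / 2` from the line. -/
def tube {d : ℕ} (p v : EuclideanSpace ℝ (Fin d)) (w : ℝ) : Set (EuclideanSpace ℝ (Fin d)) :=
  {x | Metric.infDist x (line p v) ≤ w / 2}

/-- The `s`-tube bound: the Hausdorff measure of dimension `d - 1` of the part of `K` in a tube of
width `w` is at most `C * w ^ s`, for all tubes, with one finite constant `C`. -/
def TubeBound {d : ℕ} (s : ℝ) (K : Set (EuclideanSpace ℝ (Fin d))) : Prop :=
  ∃ C : ℝ≥0, ∀ p v : EuclideanSpace ℝ (Fin d), v ≠ 0 → ∀ w : ℝ, 0 < w →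
    μH[(d : ℝ) - 1] (K ∩ tube p v w) ≤ C * ENNReal.ofReal (w ^ s)

/-- For every `d ≥ 2` there is a compact set `K` in Euclidean space of dimension `d` with positive
and finite Hausdorff measure of dimension `d - 1` that satisfies the `s`-tube bound for every
`0 ≤ s < d - 1`. -/
theorem result (d : ℕ) (hd : 2 ≤ d) : ∃ K : Set (EuclideanSpace ℝ (Fin d)),
    IsCompact K ∧ 0 < μH[(d : ℝ) - 1] K ∧ μH[(d : ℝ) - 1] K < ∞ ∧
      ∀ s : ℝ, 0 ≤ s → s < (d : ℝ) - 1 → TubeBound s K := by
  obtain ⟨m, rfl⟩ : ∃ m, d = m + 1 := ⟨d - 1, by omega⟩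
  have hm : (((m + 1 : ℕ) : ℝ) - 1) = (m : ℝ) := by push_cast; ring
  unfold TubeBound
  simp only [hm]
  refine ⟨Pool.Agent.H649T.KK m, Pool.Agent.H649T.isCompact_KK,
    lt_of_lt_of_le one_pos Pool.Agent.H649T.one_le_KK,
    lt_of_le_of_lt Pool.Agent.H649T.KK_le ENNReal.ofReal_lt_top, fun s hs0 hs => ?_⟩
  exact Pool.Agent.H649T.tube_bound m hs0 hs

end Pool.Agent.Results.MP_e5cefd_an.TubeOccupancy
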